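import Pool.Agent.CCG.Main

/-!
MP_750e22_gt, Q2 for countably compact groups: every non-metrizable countably compact Hausdorff
Abelian group has a proper dense selectively pseudocompact subgroup (in ZFC).
-/

namespace Pool.Agent.Results.MP_750e22_gt.CountablyCompactSPC

universe u

/-- Every Hausdorff Abelian topological group that is countably compact and not metrizable has a
proper dense selectively pseudocompact subgroup. -/
theorem result (G : Type u) [AddCommGroup G] [TopologicalSpace G] [IsTopologicalAddGroup G]
    [T2Space G] (hcc : CCG.CountablyCompact G) (hnm : ¬ TopologicalSpace.MetrizableSpace G) :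
    ∃ H : AddSubgroup G, H ≠ ⊤ ∧ Dense (H : Set G) ∧ CCG.SPC H :=
  CCG.main hcc.cc hnm

end Pool.Agent.Results.MP_750e22_gt.CountablyCompactSPC
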