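import Pool.Agent.SSP.CaseII

/-!
MP_750e22_gt, Q1: every non-metrizable selectively sequentially pseudocompact (SSP) abelian
topological group has a proper dense subgroup that is itself SSP.
-/

namespace Pool.Agent.Results.MP_750e22_gt.DenseSSPSubgroup

universe u

/-- Every Hausdorff abelian topological group that is SSP and not metrizable has a proper dense
SSP subgroup. -/
theorem result (G : Type u) [AddCommGroup G] [TopologicalSpace G] [IsTopologicalAddGroup G]
    [T2Space G] (hssp : Pool.Agent.SSP.IsSSP G) (hnm : ¬ TopologicalSpace.MetrizableSpace G) :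
    ∃ H : AddSubgroup G, H ≠ ⊤ ∧ Dense (H : Set G) ∧ Pool.Agent.SSP.IsSSP H :=
  Pool.Agent.SSP.main hssp hnm

end Pool.Agent.Results.MP_750e22_gt.DenseSSPSubgroup
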